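import Pool.Agent.H51.MO.TargetsA

/-! Row A_STEP of the board `mo_modules`: most formulas of a dense class are light. -/

namespace Pool.Agent.H11.MO

open Finset Pool.Agent.H51.MO

theorem card_Om (k b : ℕ) : (Fintype.card (Om k b) : ℝ) = 2 * (b : ℝ) ^ k := by
  have h : Fintype.card (Om k b) = b ^ k * 2 := by
    simp [Om, Fintype.card_prod]
  rw [h]
  push_cast
  ring

theorem exp_fifth {m : ℕ} {r : ℝ} (hr : 0 ≤ r) (h : m * r ≤ 1 / 5) : (1 + r) ^ m ≤ 5 / 4 := by
  have h1 : (1 + r) ^ m ≤ Real.exp (m * r) := by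
    have h2 : 1 + r ≤ Real.exp r := by
      have := Real.add_one_le_exp r
      linarith
    calc (1 + r) ^ m ≤ (Real.exp r) ^ m := pow_le_pow_left₀ (by linarith) h2 m
      _ = Real.exp (m * r) := (Real.exp_nat_mul r m).symm
  have h3 : Real.exp (m * r) ≤ Real.exp (1 / 5) := Real.exp_le_exp.2 h
  have h4 : Real.exp (1 / 5) ≤ 5 / 4 := by
    by_contra hc
    rw [not_le] at hc
    have h5 : (5 / 4 : ℝ) ^ 5 < (Real.exp (1 / 5)) ^ 5 :=
      pow_lt_pow_left₀ hc (by norm_num) (by norm_num)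
    rw [← Real.exp_nat_mul] at h5
    norm_num at h5
    have := Real.exp_one_lt_d9
    linarith
  linarith

theorem prod_J {k b m : ℕ} (F : Fin m → Om k b) (J : Finset (Fin m)) (x : Pt k b) :
    ∏ i : Fin J.card, ys (F (J.equivFin.symm i)) x = yJ F J x := by
  unfold yJ
  rw [← Finset.prod_coe_sort J (fun u => ys (F u) x)]
  exact Equiv.prod_comp J.equivFin.symm (fun u : J => ys (F u) x)

open Classical in
theorem heavy_le (hV : S_AHV) {k b m q w : ℕ} {β e : ℝ} {A : Finset (Pt k b)}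
    {I : Finset (Fin m)} {C : Finset (Fin m → Om k b)} (hk : 1 ≤ k) (hb : 1 ≤ b)
    (hw : k * w ≤ 2 * q) (hA : (2 : ℝ) ^ (k * b) ≤ 4 ^ q * A.card) (hβ : 0 < β) (he : 0 < e)
    (hD : Dns β I C) {J : Finset (Fin m)} (hJI : Disjoint J I) (hJn : J.Nonempty)
    (hJw : J.card ≤ w) :
    ((C.filter (fun F => e ^ J.card * A.card < |∑ x ∈ A, yJ F J x|)).card : ℝ) ≤
      (β * Real.sqrt (128 * q / b) ^ k / e ^ 2) ^ J.card * C.card := by
  set j := J.card with hj
  have hj1 : 1 ≤ j := Finset.card_pos.2 hJn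
  have hb0 : (0 : ℝ) < b := by exact_mod_cast hb
  set N : ℝ := 2 * (b : ℝ) ^ k with hN
  have hN0 : 0 < N := by positivity
  have hA0 : (0 : ℝ) < A.card := by
    have h1 : (0 : ℝ) < (2 : ℝ) ^ (k * b) := by positivity
    have h2 : (0 : ℝ) < 4 ^ q * A.card := lt_of_lt_of_le h1 hA
    exact (mul_pos_iff_of_pos_left (by positivity)).1 h2
  set t0 : ℝ := Real.sqrt (128 * q / b) ^ k with ht0
  have ht00 : 0 ≤ t0 := by positivity
  set H : Finset (Fin j → Om k b) :=
    univ.filter (fun τ => e ^ j * A.card < |∑ x ∈ A, ∏ u, ys (τ u) x|) with hH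
  -- number of heavy assignments
  have hHc : (H.card : ℝ) * (e ^ 2) ^ j ≤ N ^ j * t0 ^ j := by
    have h1 := hV k b q j A hk hb hj1 ((Nat.mul_le_mul_left k hJw).trans hw) hA
    have h2 : (H.card : ℝ) * ((e ^ j * A.card) ^ 2) ≤
        ∑ τ : Fin j → Om k b, (∑ x ∈ A, ∏ u, ys (τ u) x) ^ 2 := by
      calc (H.card : ℝ) * ((e ^ j * A.card) ^ 2) = ∑ τ ∈ H, (e ^ j * A.card) ^ 2 := by
            rw [Finset.sum_const, nsmul_eq_mul]
        _ ≤ ∑ τ ∈ H, (∑ x ∈ A, ∏ u, ys (τ u) x) ^ 2 := by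
            refine Finset.sum_le_sum fun τ hτ => ?_
            have h3 := (Finset.mem_filter.1 hτ).2
            rw [← sq_abs (∑ x ∈ A, ∏ u, ys (τ u) x)]
            exact pow_le_pow_left₀ (by positivity) h3.le 2
        _ ≤ ∑ τ : Fin j → Om k b, (∑ x ∈ A, ∏ u, ys (τ u) x) ^ 2 :=
            Finset.sum_le_sum_of_subset_of_nonneg (Finset.subset_univ _)
              (fun _ _ _ => sq_nonneg _)
    have h4 : (H.card : ℝ) * (e ^ 2) ^ j * (A.card : ℝ) ^ 2 ≤ N ^ j * t0 ^ j * (A.card : ℝ) ^ 2 := by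
      calc (H.card : ℝ) * (e ^ 2) ^ j * (A.card : ℝ) ^ 2 =
            (H.card : ℝ) * ((e ^ j * A.card) ^ 2) := by ring
        _ ≤ N ^ j * (A.card : ℝ) ^ 2 * Real.sqrt (128 * q / b) ^ (k * j) := h2.trans h1
        _ = N ^ j * t0 ^ j * (A.card : ℝ) ^ 2 := by
            rw [ht0, ← pow_mul]
            ring
    exact le_of_mul_le_mul_right h4 (by positivity)
  -- fibres
  set G : Finset (Fin m → Om k b) :=
    C.filter (fun F => e ^ j * A.card < |∑ x ∈ A, yJ F J x|) with hG
  have hmaps : ∀ F ∈ G, (fun i : Fin j => F (J.equivFin.symm i)) ∈ H := by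
    intro F hF
    have h1 := (Finset.mem_filter.1 hF).2
    rw [hH, Finset.mem_filter]
    refine ⟨Finset.mem_univ _, ?_⟩
    have h2 : ∀ x, ∏ i : Fin j, ys (F (J.equivFin.symm i)) x = yJ F J x := fun x => prod_J F J x
    simp only [h2]
    exact h1
  have hcard : (G.card : ℝ) = ∑ τ ∈ H,
      ((G.filter (fun F => (fun i : Fin j => F (J.equivFin.symm i)) = τ)).card : ℝ) := by
    have := Finset.card_eq_sum_card_fiberwise
      (f := fun (F : Fin m → Om k b) (i : Fin j) => F (J.equivFin.symm i)) hmaps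
    rw [this]
    push_cast
    rfl
  have hfib : ∀ τ ∈ H,
      ((G.filter (fun F => (fun i : Fin j => F (J.equivFin.symm i)) = τ)).card : ℝ) * N ^ j ≤
        β ^ j * C.card := by
    intro τ _
    rcases (G.filter (fun F => (fun i : Fin j => F (J.equivFin.symm i)) = τ)).eq_empty_or_nonempty
      with h0 | ⟨F0, hF0⟩
    · rw [h0]
      simp only [Finset.card_empty, Nat.cast_zero, zero_mul]
      positivity
    · have h1 := hD J hJI F0
      rw [card_Om] at h1
      refine le_trans (mul_le_mul_of_nonneg_right ?_ (by positivity)) h1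
      have hF1 := (Finset.mem_filter.1 hF0).2
      refine Nat.cast_le.2 (Finset.card_le_card fun F hF => ?_)
      simp only [Finset.mem_filter] at hF ⊢
      refine ⟨(Finset.mem_filter.1 hF.1).1, fun i hi => ?_⟩
      have h2 : (fun i : Fin j => F (J.equivFin.symm i)) = fun i : Fin j => F0 (J.equivFin.symm i) := by
        rw [hF.2]
        exact hF1.symm
      have h3 := congrFun h2 (J.equivFin ⟨i, hi⟩)
      simpa using h3
  have h5 : (G.card : ℝ) * N ^ j ≤ H.card * (β ^ j * C.card) := by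
    rw [hcard, Finset.sum_mul]
    refine (Finset.sum_le_sum hfib).trans ?_
    rw [Finset.sum_const, nsmul_eq_mul]
  have h6 : (G.card : ℝ) * (e ^ 2) ^ j * N ^ j ≤ (β ^ j * t0 ^ j * C.card) * N ^ j := by
    calc (G.card : ℝ) * (e ^ 2) ^ j * N ^ j = (e ^ 2) ^ j * ((G.card : ℝ) * N ^ j) := by ring
      _ ≤ (e ^ 2) ^ j * (H.card * (β ^ j * C.card)) :=
          mul_le_mul_of_nonneg_left h5 (by positivity)
      _ = (H.card * (e ^ 2) ^ j) * (β ^ j * C.card) := by ring
      _ ≤ (N ^ j * t0 ^ j) * (β ^ j * C.card) :=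
          mul_le_mul_of_nonneg_right hHc (by positivity)
      _ = (β ^ j * t0 ^ j * C.card) * N ^ j := by ring
  have h7 := le_of_mul_le_mul_right h6 (by positivity)
  rw [div_pow, mul_pow, div_mul_eq_mul_div, le_div_iff₀ (by positivity)]
  exact h7

open Classical in
theorem pf_ASTEP (hV : S_AHV) : S_ASTEP := by
  intro k b m q w β e A I C hk hb hw hA hβ he hm hD
  set r : ℝ := β * Real.sqrt (128 * q / b) ^ k / e ^ 2 with hr
  have hr0 : 0 ≤ r := by positivity
  have hmr : m * r ≤ 1 / 5 := by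
    rw [hr, ← mul_div_assoc, div_le_iff₀ (by positivity)]
    calc (m : ℝ) * (β * Real.sqrt (128 * q / b) ^ k) = m * β * Real.sqrt (128 * q / b) ^ k := by ring
      _ ≤ e ^ 2 / 5 := hm
      _ = 1 / 5 * e ^ 2 := by ring
  set S : Finset (Finset (Fin m)) :=
    univ.filter (fun J => Disjoint J I ∧ J.Nonempty ∧ J.card ≤ w) with hS
  have hsub : C.filter (fun F => ¬ Light A w e I F) ⊆
      S.biUnion (fun J => C.filter (fun F => e ^ J.card * A.card < |∑ x ∈ A, yJ F J x|)) := by
    intro F hF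
    rw [Finset.mem_filter] at hF
    have h1 := hF.2
    unfold Light at h1
    simp only [not_forall, not_le] at h1
    obtain ⟨J, h2, h3, h4, h5⟩ := h1
    refine Finset.mem_biUnion.2 ⟨J, ?_, ?_⟩
    · rw [hS, Finset.mem_filter]
      exact ⟨Finset.mem_univ _, h2, h3, h4⟩
    · rw [Finset.mem_filter]
      exact ⟨hF.1, h5⟩
  have h1 : ((C.filter (fun F => ¬ Light A w e I F)).card : ℝ) ≤ ∑ J ∈ S, r ^ J.card * C.card := by
    have h2 : ((C.filter (fun F => ¬ Light A w e I F)).card : ℝ) ≤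
        ∑ J ∈ S, ((C.filter (fun F => e ^ J.card * A.card < |∑ x ∈ A, yJ F J x|)).card : ℝ) := by
      have h3 := (Finset.card_le_card hsub).trans Finset.card_biUnion_le
      have h4 : ((C.filter (fun F => ¬ Light A w e I F)).card : ℝ) ≤
        ((∑ J ∈ S, (C.filter (fun F => e ^ J.card * A.card < |∑ x ∈ A, yJ F J x|)).card : ℕ) : ℝ) :=
        Nat.cast_le.2 h3
      refine h4.trans (le_of_eq ?_)
      push_cast
      rfl
    refine h2.trans (Finset.sum_le_sum fun J hJ => ?_)
    rw [hS, Finset.mem_filter] at hJ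
    exact heavy_le hV hk hb hw hA hβ he hD hJ.2.1 hJ.2.2.1 hJ.2.2.2
  have h3 : ∑ J ∈ S, r ^ J.card ≤ 1 / 4 := by
    have h4 : ∑ J ∈ (univ : Finset (Finset (Fin m))), r ^ J.card = (1 + r) ^ m := by
      have h5 := Finset.prod_one_add (s := (univ : Finset (Fin m))) (f := fun _ => r)
      simp only [Finset.prod_const, Finset.card_univ, Fintype.card_fin,
        Finset.powerset_univ] at h5
      exact h5.symm
    have h6 : ∑ J ∈ insert ∅ S, r ^ J.card ≤ ∑ J ∈ (univ : Finset (Finset (Fin m))), r ^ J.card :=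
      Finset.sum_le_sum_of_subset_of_nonneg (Finset.subset_univ _) (fun _ _ _ => by positivity)
    have h7 : (∅ : Finset (Fin m)) ∉ S := by
      intro hc
      rw [hS, Finset.mem_filter] at hc
      exact Finset.not_nonempty_empty hc.2.2.1
    rw [Finset.sum_insert h7, Finset.card_empty, pow_zero, h4] at h6
    have h8 := exp_fifth hr0 hmr
    linarith
  have h9 : ((C.filter (fun F => ¬ Light A w e I F)).card : ℝ) ≤ 1 / 4 * C.card := by
    refine h1.trans ?_
    rw [← Finset.sum_mul]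
    exact mul_le_mul_of_nonneg_right h3 (by positivity)
  have h10 : (4 : ℝ) * ((C.filter (fun F => ¬ Light A w e I F)).card : ℝ) ≤ C.card := by linarith
  exact_mod_cast h10

end Pool.Agent.H11.MO
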